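import Pool.Agent.Q273.MDR.Final

set_option autoImplicit false

/-! # The minimal-domination reconfiguration graph has girth at most 5 -/

namespace Pool.Agent.Results.MP_fb0e57_co.GirthAtMostFive

open Pool.Q273.MDR

universe u

/-- For every finite graph `G` with at least one vertex: if the reconfiguration graph `R(G)` of
the minimal dominating sets (`Pool.Q273.MDR.reconf`) contains a cycle, then it contains a cycle of
length `3`, `4` or `5`, and its girth is at most `5`. -/
theorem result {V : Type u} [Fintype V] [DecidableEq V] [Nonempty V] (G : SimpleGraph V)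
    (h : ∃ (M : _) (p : (reconf G).Walk M M), p.IsCycle) :
    (∃ (M : _) (p : (reconf G).Walk M M), p.IsCycle ∧
      (p.length = 3 ∨ p.length = 4 ∨ p.length = 5)) ∧ (reconf G).egirth ≤ 5 := by
  have key : ∃ (M : _) (p : (reconf G).Walk M M), p.IsCycle ∧
      (p.length = 3 ∨ p.length = 4 ∨ p.length = 5) := by
    apply exists_short_cycle
    rintro ⟨c, hc⟩
    obtain ⟨M, p, hp⟩ := h
    exact (star_isTree G hc).2 p hp
  refine ⟨key, ?_⟩
  obtain ⟨M, p, hp, hl⟩ := key
  refine (SimpleGraph.egirth_le_length hp).trans ?_
  have : p.length ≤ 5 := by omega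
  exact_mod_cast this

end Pool.Agent.Results.MP_fb0e57_co.GirthAtMostFive
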